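import Pool.Agent.H960R3.Navy4

/-!
# A regular closed image of a regular paralindelöf space need not be paralindelöf (ZFC)
-/

set_option autoImplicit false

open Set Topology

namespace Pool.Agent.Results.MP_6bd103_gt.ClosedImage

/-- A family of sets is locally countable if each point has a neighbourhood that meets only
countably many members of the family. -/
def LocallyCountable {X : Type} [TopologicalSpace X] (𝒱 : Set (Set X)) : Prop :=
  ∀ x : X, ∃ N ∈ 𝓝 x, {V ∈ 𝒱 | (V ∩ N).Nonempty}.Countable

/-- `X` is paralindelöf if each open cover of `X` has a locally countable open refinement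
covering `X`. -/
def Paralindelof (X : Type) [TopologicalSpace X] : Prop :=
  ∀ 𝒰 : Set (Set X), (∀ U ∈ 𝒰, IsOpen U) → ⋃₀ 𝒰 = univ →
    ∃ 𝒱 : Set (Set X), (∀ V ∈ 𝒱, IsOpen V) ∧ ⋃₀ 𝒱 = univ ∧ (∀ V ∈ 𝒱, ∃ U ∈ 𝒰, V ⊆ U) ∧
      LocallyCountable 𝒱

/-- There are a paralindelöf T3 space `X` and a closed continuous surjection of `X` onto a T3 space
that is not paralindelöf. -/
theorem result : ∃ (X Y : Type) (_ : TopologicalSpace X) (_ : TopologicalSpace Y) (f : X → Y),
    T3Space X ∧ T3Space Y ∧ Paralindelof X ∧ Continuous f ∧ Function.Surjective f ∧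
      IsClosedMap f ∧ ¬ Paralindelof Y := by
  let W : Type := (Cardinal.aleph 1).ord.ToType
  have hWu : ¬ (univ : Set W).Countable := by
    intro h
    have h1 : Cardinal.mk W ≤ Cardinal.aleph0 := by
      have := Cardinal.le_aleph0_iff_set_countable.2 h
      rwa [Cardinal.mk_univ] at this
    have h2 : Cardinal.mk W = Cardinal.aleph 1 := Cardinal.mk_ord_toType _
    rw [h2] at h1
    exact absurd h1 (not_le.2 Cardinal.aleph0_lt_aleph_one)
  have hWo : ∀ γ : W, (Iio γ).Countable := by
    intro γ
    have h1 : Cardinal.mk (Iio γ) < Cardinal.aleph 1 := Cardinal.mk_Iio_toType_ord_lt γ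
    rw [← Cardinal.le_aleph0_iff_set_countable]
    exact Order.lt_succ_iff.1 (h1.trans_eq Cardinal.succ_aleph0.symm)
  have hWc : ∀ γ : W, (Iic γ).Countable := by
    intro γ
    refine ((hWo γ).union (countable_singleton γ)).mono ?_
    intro x hx
    rcases lt_or_eq_of_le (show x ≤ γ from hx) with h | h
    · exact Or.inl h
    · exact Or.inr h
  have hne : Nonempty W := by
    by_contra h
    rw [not_nonempty_iff] at h
    exact hWu (to_countable _)
  obtain ⟨w₀⟩ := id hne
  exact ⟨H960R3.Navy.XX W, H960R3.Navy.YY W, inferInstance, inferInstance, H960R3.Navy.ff,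
    inferInstance, inferInstance, fun 𝒰 hU hc => H960R3.Navy.paralindelof_XX hWc w₀ 𝒰 hU hc,
    H960R3.Navy.ff_cont, H960R3.Navy.ff_surj, H960R3.Navy.ff_closed,
    fun h => H960R3.Navy.not_paralindelof_YY hWu hWc h⟩

end Pool.Agent.Results.MP_6bd103_gt.ClosedImage
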