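import Mathlib

/-!
# Perfect images of paralindelöf spaces are paralindelöf

Key point: in a paralindelöf space every locally countable family of (arbitrary) sets has a locally
countable open expansion.
-/

set_option autoImplicit false

open Set Topology Filter

universe u v

namespace Pool.Agent.Results.MP_6bd103_gt.PerfectImage

/-- A family of sets is locally countable if each point has a neighbourhood that meets only
countably many members of the family. -/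
def LocallyCountable {X : Type u} [TopologicalSpace X] (𝒱 : Set (Set X)) : Prop :=
  ∀ x : X, ∃ N ∈ 𝓝 x, {V ∈ 𝒱 | (V ∩ N).Nonempty}.Countable

/-- `X` is paralindelöf if each open cover of `X` has a locally countable open refinement
covering `X`. -/
def Paralindelof (X : Type u) [TopologicalSpace X] : Prop :=
  ∀ 𝒰 : Set (Set X), (∀ U ∈ 𝒰, IsOpen U) → ⋃₀ 𝒰 = univ →
    ∃ 𝒱 : Set (Set X), (∀ V ∈ 𝒱, IsOpen V) ∧ ⋃₀ 𝒱 = univ ∧ (∀ V ∈ 𝒱, ∃ U ∈ 𝒰, V ⊆ U) ∧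
      LocallyCountable 𝒱

/-- A perfect mapping: continuous, surjective, closed, with compact fibres. -/
def Perfect {X : Type u} {Y : Type v} [TopologicalSpace X] [TopologicalSpace Y] (f : X → Y) :
    Prop :=
  Continuous f ∧ Function.Surjective f ∧ IsClosedMap f ∧ ∀ y, IsCompact (f ⁻¹' {y})

/-- Indexed families: locally countable open expansions. -/
theorem expansion {X : Type u} [TopologicalSpace X] (hX : Paralindelof X) {ι : Type u}
    (A : ι → Set X) (hA : ∀ x, ∃ N ∈ 𝓝 x, {i | (A i ∩ N).Nonempty}.Countable) :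
    ∃ E : ι → Set X, (∀ i, IsOpen (E i)) ∧ (∀ i, A i ⊆ E i) ∧
      ∀ x, ∃ N ∈ 𝓝 x, {i | (E i ∩ N).Nonempty}.Countable := by
  obtain ⟨ℋ, hHo, hHc, hHr, hHl⟩ := hX {O | IsOpen O ∧ {i | (A i ∩ O).Nonempty}.Countable}
    (fun O hO => hO.1) (by
      rw [eq_univ_iff_forall]
      intro x
      obtain ⟨N, hN, hc⟩ := hA x
      refine ⟨interior N, ⟨isOpen_interior, hc.mono fun i hi => ?_⟩, mem_interior_iff_mem_nhds.2 hN⟩
      exact hi.mono (inter_subset_inter_right _ interior_subset))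
  have hHA : ∀ H ∈ ℋ, {i | (A i ∩ H).Nonempty}.Countable := by
    intro H hH
    obtain ⟨O, hO, hHO⟩ := hHr H hH
    exact hO.2.mono fun i hi => hi.mono (inter_subset_inter_right _ hHO)
  refine ⟨fun i => ⋃₀ {H ∈ ℋ | (A i ∩ H).Nonempty}, fun i => isOpen_sUnion fun H hH => hHo H hH.1,
    ?_, ?_⟩
  · intro i x hx
    have : x ∈ ⋃₀ ℋ := by rw [hHc]; trivial
    obtain ⟨H, hH, hxH⟩ := this
    exact ⟨H, ⟨hH, ⟨x, hx, hxH⟩⟩, hxH⟩
  · intro x
    obtain ⟨N, hN, hc⟩ := hHl x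
    refine ⟨N, hN, ?_⟩
    have h1 : (⋃ H ∈ {V ∈ ℋ | (V ∩ N).Nonempty}, {i | (A i ∩ H).Nonempty}).Countable :=
      hc.biUnion fun H hH => hHA H hH.1
    refine h1.mono ?_
    rintro i ⟨z, ⟨H, ⟨hH, hAH⟩, hzH⟩, hzN⟩
    exact mem_iUnion₂.2 ⟨H, ⟨hH, ⟨z, hzH, hzN⟩⟩, hAH⟩

/-- Locally countable families are mapped to such families by perfect maps (indexed form):
if each point of `X` has a neighbourhood meeting countably many `A i` and `y : Y`, then there is a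
neighbourhood `M` of `y` whose preimage meets countably many `A i`. -/
theorem push {X : Type u} {Y : Type v} [TopologicalSpace X] [TopologicalSpace Y] {f : X → Y}
    (hf : Perfect f) {ι : Type u} (A : ι → Set X)
    (hA : ∀ x, ∃ N ∈ 𝓝 x, {i | (A i ∩ N).Nonempty}.Countable) (y : Y) :
    ∃ M ∈ 𝓝 y, {i | (A i ∩ f ⁻¹' M).Nonempty}.Countable := by
  choose N hN hc using hA
  obtain ⟨t, -, ht⟩ := (hf.2.2.2 y).elim_nhds_subcover (fun x => interior (N x))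
    (fun x _ => interior_mem_nhds.2 (hN x))
  let O : Set X := ⋃ x ∈ t, interior (N x)
  have hO : IsOpen O := isOpen_biUnion fun x _ => isOpen_interior
  refine ⟨(f '' Oᶜ)ᶜ, ((hf.2.2.1 _ hO.isClosed_compl).isOpen_compl).mem_nhds ?_, ?_⟩
  · rintro ⟨x, hx, rfl⟩
    exact hx (ht rfl)
  · have h1 : (⋃ x ∈ t, {i | (A i ∩ N x).Nonempty}).Countable :=
      t.countable_toSet.biUnion fun x _ => hc x
    refine h1.mono ?_
    rintro i ⟨z, hzA, hzM⟩
    have hzO : z ∈ O := by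
      by_contra h
      exact hzM ⟨z, h, rfl⟩
    obtain ⟨x, hx, hzx⟩ := mem_iUnion₂.1 hzO
    exact mem_iUnion₂.2 ⟨x, hx, ⟨z, hzA, interior_subset hzx⟩⟩

/-- The perfect image of a paralindelöf space is paralindelöf (no separation axioms needed). -/
theorem result {X : Type u} {Y : Type v} [TopologicalSpace X] [TopologicalSpace Y] (f : X → Y)
    (hX : Paralindelof X) (hf : Perfect f) : Paralindelof Y := by
  intro 𝒰 hU hUc
  obtain ⟨𝒱, hVo, hVc, hVr, hVl⟩ := hX ((fun U => f ⁻¹' U) '' 𝒰)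
    (by rintro _ ⟨U, hU', rfl⟩; exact (hU U hU').preimage hf.1)
    (by
      rw [eq_univ_iff_forall]
      intro x
      have : f x ∈ ⋃₀ 𝒰 := by rw [hUc]; trivial
      obtain ⟨U, hU', hx⟩ := this
      exact ⟨f ⁻¹' U, ⟨U, hU', rfl⟩, hx⟩)
  have hch : ∀ V : 𝒱, ∃ U ∈ 𝒰, V.1 ⊆ f ⁻¹' U := by
    rintro ⟨V, hV⟩
    obtain ⟨_, ⟨U, hU', rfl⟩, h⟩ := hVr V hV
    exact ⟨U, hU', h⟩
  choose U hU1 hU2 using hch
  -- the family of the members of `𝒱` is locally countable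
  have hl1 : ∀ x, ∃ N ∈ 𝓝 x, {V : 𝒱 | (V.1 ∩ N).Nonempty}.Countable := by
    intro x
    obtain ⟨N, hN, hc⟩ := hVl x
    refine ⟨N, hN, ?_⟩
    have : {V : 𝒱 | (V.1 ∩ N).Nonempty} = Subtype.val ⁻¹' {V ∈ 𝒱 | (V ∩ N).Nonempty} := by
      ext V; simp
    rw [this]
    exact hc.preimage Subtype.val_injective
  -- the saturations
  have hl2 : ∀ x, ∃ N ∈ 𝓝 x, {V : 𝒱 | (f ⁻¹' (f '' V.1) ∩ N).Nonempty}.Countable := by
    intro x
    obtain ⟨M, hM, hc⟩ := push hf (fun V : 𝒱 => V.1) hl1 (f x)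
    refine ⟨f ⁻¹' M, hf.1.continuousAt.preimage_mem_nhds hM, hc.mono ?_⟩
    rintro V ⟨z, ⟨w, hw, hwz⟩, hzM⟩
    refine ⟨w, hw, ?_⟩
    show f w ∈ M
    rw [hwz]; exact hzM
  obtain ⟨E, hEo, hAE, hEl⟩ := expansion hX (fun V : 𝒱 => f ⁻¹' (f '' V.1)) hl2
  refine ⟨range fun V : 𝒱 => (f '' (E V)ᶜ)ᶜ ∩ U V, ?_, ?_, ?_, ?_⟩
  · rintro _ ⟨V, rfl⟩
    exact ((hf.2.2.1 _ (hEo V).isClosed_compl).isOpen_compl).inter (hU _ (hU1 V))
  · rw [eq_univ_iff_forall]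
    intro y
    obtain ⟨x, rfl⟩ := hf.2.1 y
    have : x ∈ ⋃₀ 𝒱 := by rw [hVc]; trivial
    obtain ⟨V, hV, hxV⟩ := this
    refine ⟨_, ⟨⟨V, hV⟩, rfl⟩, ?_, hU2 ⟨V, hV⟩ hxV⟩
    rintro ⟨z, hz, hzx⟩
    exact hz (hAE ⟨V, hV⟩ ⟨x, hxV, hzx.symm⟩)
  · rintro _ ⟨V, rfl⟩
    exact ⟨U V, hU1 V, inter_subset_right⟩
  · intro y
    obtain ⟨M, hM, hc⟩ := push hf E hEl y
    refine ⟨M, hM, (hc.image fun V : 𝒱 => (f '' (E V)ᶜ)ᶜ ∩ U V).mono ?_⟩
    rintro _ ⟨⟨V, rfl⟩, z, ⟨hz1, -⟩, hzM⟩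
    obtain ⟨x, rfl⟩ := hf.2.1 z
    refine ⟨V, ⟨x, ?_, hzM⟩, rfl⟩
    by_contra h
    exact hz1 ⟨x, h, rfl⟩

end Pool.Agent.Results.MP_6bd103_gt.PerfectImage
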